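import Pool.Agent.H137R2.Weak.Final

set_option autoImplicit false
open scoped Pointwise

namespace Pool.Agent.Results.MP_dd2a7c_co.WeakMarton

/-- Weak polynomial Freiman-Ruzsa theorem in an arbitrary abelian group, up to elements of odd
order: a finite nonempty set with `|A+A| ≤ K|A|` is covered by `K^185` translates of
`P + ⟨S⟩ + (elements of odd order)`, where `P` is a finite subgroup of order at most `|A|` with
`|A+P| ≤ 2 K^370 |A|` and `S` has at most `480 log K + 1` elements. -/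
theorem result {Γ : Type*} [AddCommGroup Γ] [d : DecidableEq Γ] (K : ℝ) (A : Finset Γ)
    (hA : A.Nonempty) (hK : ((A + A).card : ℝ) ≤ K * (A.card : ℝ)) :
    ∃ (P : AddSubgroup Γ) (S T : Finset Γ), Finite P ∧ Nat.card P ≤ A.card ∧
      (((A : Set Γ) + (P : Set Γ)).ncard : ℝ) ≤ 2 * K ^ 370 * A.card ∧
      (S.card : ℝ) ≤ 480 * Real.log K + 1 ∧ T ⊆ A ∧ (T.card : ℝ) ≤ K ^ 185 ∧
      ∀ a ∈ A, ∃ t ∈ T, ∃ o : Γ, (∃ m : ℕ, Odd m ∧ m • o = 0) ∧
        a - t - o ∈ P ⊔ AddSubgroup.closure (S : Set Γ) := by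
  have hd : d = (fun a b => Classical.propDecidable (a = b)) := Subsingleton.elim _ _
  subst hd
  exact H137.Weak.weak_marton hA hK

end Pool.Agent.Results.MP_dd2a7c_co.WeakMarton
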