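import Pool.Agent.H890R2.TOR.GEN

set_option autoImplicit false
open scoped Pointwise

namespace Pool.Agent.Results.MP_dd2a7c_co.MartonTorsion

/-- Marton's conjecture in abelian groups of exponent dividing `m`, with exponent `O(log m)`: a
finite nonempty set with `|A+A| ≤ K|A|` is covered by `(2K) ^ (200000 ⌈log₂ m⌉)` translates of a
finite subgroup of order at most `|A|`. -/
theorem result {G : Type*} [AddCommGroup G] [d : DecidableEq G] (m : ℕ) (hm : 2 ≤ m)
    (hG : ∀ x : G, m • x = 0) (K : ℝ) (A : Finset G) (hA : A.Nonempty)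
    (hK : ((A + A).card : ℝ) ≤ K * (A.card : ℝ)) :
    ∃ (H : AddSubgroup G) (T : Finset G), Finite H ∧ Nat.card H ≤ A.card ∧
      (T.card : ℝ) ≤ (2 * K) ^ (200000 * Nat.clog 2 m) ∧ ∀ a ∈ A, ∃ t ∈ T, a - t ∈ H := by
  have hd : d = (fun a b => Classical.propDecidable (a = b)) := Subsingleton.elim _ _
  subst hd
  exact H890.TOR.cover hm hG hA hK

end Pool.Agent.Results.MP_dd2a7c_co.MartonTorsion
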