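import Pool.Agent.H137R2.Tr.Final

set_option autoImplicit false
open scoped Pointwise

namespace Pool.Agent.Results.MP_dd2a7c_co.PolyTranslates

/-- Freiman-Ruzsa theorem in an arbitrary abelian group with polynomially many translates:
for every real `s ≥ 1`, a finite nonempty set with `|A+A| ≤ K|A|` is covered by `(2K)^{O(s)}`
translates of a centred convex coset progression of dimension `O(s log 2K)` and volume at most
`exp(O((log 2K) (1+log 2K)^{1/s} (1+log(1+log 2K)))) |A|`. -/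
theorem result {Γ : Type*} [AddCommGroup Γ] [DecidableEq Γ] (K s : ℝ) (hs : 1 ≤ s)
    (A : Finset Γ) (hA : A.Nonempty) (hK : ((A + A).card : ℝ) ≤ K * (A.card : ℝ)) :
    ∃ (d : ℕ) (B : Set (Fin d → ℝ)) (ψ : (Fin d → ℤ) →+ Γ) (H : AddSubgroup Γ) (T : Finset Γ),
      (d : ℝ) ≤ 63000 * s * Real.log (2 * K) ∧
      Convex ℝ B ∧ IsCompact B ∧ (interior B).Nonempty ∧ (∀ x ∈ B, -x ∈ B) ∧
      Finite H ∧
      (({x : Fin d → ℤ | (fun i => (x i : ℝ)) ∈ B}.ncard * Nat.card H : ℕ) : ℝ) ≤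
        Real.exp (17000 * Real.log (2 * K) * (1 + Real.log (2 * K)) ^ (1 / s) *
          (1 + Real.log (1 + Real.log (2 * K)))) * A.card ∧
      (T.card : ℝ) ≤ (2 * K) ^ (24200 * s) ∧
      ∀ a ∈ A, ∃ t ∈ T, ∃ x : Fin d → ℤ, (fun i => (x i : ℝ)) ∈ B ∧
        ∃ h ∈ H, a = t + ψ x + h := by
  obtain ⟨d, B, ψ, H, T, hd, hB, hH, hvol, hT, hcov⟩ := H137.Tr.trade hA hK hs
  exact ⟨d, B, ψ, H, T, hd, hB.1, hB.2.1, hB.2.2.1, hB.2.2.2, hH, hvol, hT, hcov⟩

end Pool.Agent.Results.MP_dd2a7c_co.PolyTranslates
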